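import Pool.Agent.Q297.MixMain

/-!
# Dimension-free comparison of KL and chi-squared with Hellinger for Gaussian mixtures

For mixing distributions supported in the Euclidean ball of radius `M`, in every dimension, both
the Kullback-Leibler and the chi-squared divergence of the Gaussian mixtures are at most
`40 max(4, exp(12 M^2))` times the squared Hellinger distance.
-/

open MeasureTheory Q297.Mix

namespace Pool.Agent.Results.MP_ba1a3e_pr.DimensionFree

/-- Positive answer to both questions. -/
theorem result : ∀ M : ℝ, 0 < M → ∀ (d : ℕ) (π η : Measure (EuclideanSpace ℝ (Fin d))),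
    IsProbabilityMeasure π → IsProbabilityMeasure η →
    π (Metric.closedBall 0 M)ᶜ = 0 → η (Metric.closedBall 0 M)ᶜ = 0 →
    Integrable (fun x => (mixture π x - mixture η x) ^ 2 / mixture η x) ∧
    Integrable (fun x => mixture π x * Real.log (mixture π x / mixture η x)) ∧
    Integrable (fun x => (Real.sqrt (mixture π x) - Real.sqrt (mixture η x)) ^ 2) ∧
    chi2 (mixture π) (mixture η) ≤
      40 * max 4 (Real.exp (12 * M ^ 2)) * H2 (mixture π) (mixture η) ∧
    KL (mixture π) (mixture η) ≤
      40 * max 4 (Real.exp (12 * M ^ 2)) * H2 (mixture π) (mixture η) := by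
  intro M hM d π η hp1 hp2 hπ hη
  have hπ' : ∀ᵐ z ∂π, ‖z‖ ≤ M := by
    rw [ae_iff]
    convert hπ using 2
    ext z
    simp
  have hη' : ∀ᵐ z ∂η, ‖z‖ ≤ M := by
    rw [ae_iff]
    convert hη using 2
    ext z
    simp
  obtain ⟨h1, h2, h3, h4, h5⟩ := main hM hπ' hη'
  exact ⟨h1, h2, h3, h4, h5.trans h4⟩

end Pool.Agent.Results.MP_ba1a3e_pr.DimensionFree
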